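import Pool.Agent.H82.NTC.Stmts

/-!
# E2: the previous position is nearer to the woman than her own one
-/

set_option autoImplicit false

namespace Pool.NTC

open Pool.NET

theorem e2_pos {A B : ℤ} (h1 : A < B) (h2 : -A < B) : |A| < |B| :=
  (abs_lt.2 ⟨by linarith, h1⟩).trans_le (le_abs_self B)

theorem e2_neg {A B : ℤ} (h1 : A < -B) (h2 : -A < -B) : |A| < |B| :=
  (abs_lt.2 ⟨by linarith, h1⟩).trans_le (neg_le_abs B)

theorem e2_j {X Y : ℤ} (h : X ≠ Y) : |4 * X + 1 - 4 * X| < |4 * X + 1 - 4 * Y| := by
  rcases lt_or_gt_of_ne h with h1 | h1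
  · exact e2_neg (by omega) (by omega)
  · exact e2_pos (by omega) (by omega)

theorem e2_thm : E2_S := by
  intro p e g h u hp t ht w hne
  obtain ⟨q0, gq, gW, We, eM, MS⟩ := hp
  have t1 := (ht (pv2 h u w)).1
  have t2 := (ht (pv2 h u w)).2
  have t3 := (ht w).1
  have t4 := (ht w).2
  generalize t w = T1 at *
  obtain ⟨⟨c, r⟩, k⟩ := w
  cases k
  case J1 =>
    simp only [prW] at *
    exact e2_j hne
  case J2 =>
    simp only [prW] at *
    exact e2_j hne
  case J3 =>
    simp only [prW] at *
    exact e2_j hne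
  case J4 =>
    simp only [prW] at *
    exact e2_j hne
  all_goals
    simp only [prW]
    generalize t (pv2 h u _) = T2 at *
    clear hne ht
    simp only [pv2] at *
    (try split_ifs) <;> simp only [fy] <;>
    first
      | exact e2_pos (by linarith) (by linarith)
      | exact e2_neg (by linarith) (by linarith)

end Pool.NTC
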